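import Mathlib
import Pool.Agent.H592.TD.Stm
import Pool.Graph.R_pool_sql_team_seeded_f0cf7b00.H329R2.AD.G2

/-!
# TD project (helper592), part S11: the library bound with the sorted balanced part added

`key`: for `y² < n` one has `3 aa 2 y n + 6 srt y n ≤ dk 3 n` (the three sets of the triples with a product
of two members `≤ y` and the six orders of the sorted balanced triples are disjoint).
-/

set_option autoImplicit false

open Finset Filter Topology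

namespace Pool.Agent.H996.TD

open Pool.Agent.H592.TD (srt TT S11)
open Pool.Agent.H329R2.AD (dk aa dk_nonneg aa_nonneg aa_le aa_eq SS SS_pos BB BB_asymp GG GG_exists
  T_lower_of BVStmt_holds DBStmt_holds small1 small2)

/-- the sorted factorisations in the order `π` -/
def SP (y n : ℕ) (π : Equiv.Perm (Fin 3)) : Finset (Fin 3 → ℕ) :=
  (Nat.finMulAntidiag 3 n).filter
    (fun v => v (π 0) < v (π 1) ∧ v (π 1) < v (π 2) ∧ y < v (π 0) * v (π 1))

lemma prod_perm (v : Fin 3 → ℕ) (π : Equiv.Perm (Fin 3)) :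
    ∏ i, v i = v (π 0) * v (π 1) * v (π 2) := by
  rw [← Equiv.prod_comp π v, Fin.prod_univ_three]

lemma SP_card (y n : ℕ) (π : Equiv.Perm (Fin 3)) : (SP y n π).card = srt y n := by
  unfold SP srt
  refine Finset.card_nbij' (fun v => (v (π 0), v (π 1)))
    (fun p i => ![p.1, p.2, n / (p.1 * p.2)] (π.symm i)) ?_ ?_ ?_ ?_
  · intro v hv
    rw [mem_coe, mem_filter, Nat.mem_finMulAntidiag, prod_perm v π] at hv
    obtain ⟨⟨h1, h2⟩, h3, h4, h5⟩ := hv
    rw [mem_coe, mem_filter, mem_product, Nat.mem_divisors, Nat.mem_divisors]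
    have h6 : 0 < v (π 0) * v (π 1) := by omega
    refine ⟨⟨⟨⟨v (π 1) * v (π 2), ?_⟩, h2⟩, ⟨⟨v (π 0) * v (π 2), ?_⟩, h2⟩⟩, h3, h5,
      ⟨v (π 2), h1.symm⟩, ?_⟩
    · rw [← h1, mul_assoc]
    · rw [← h1]; ring
    · dsimp only
      rw [← h1, Nat.mul_div_cancel_left _ h6]
      exact h4
  · rintro ⟨a, b⟩ hp
    rw [mem_coe, mem_filter, mem_product, Nat.mem_divisors, Nat.mem_divisors] at hp
    obtain ⟨⟨⟨h1, h2⟩, _⟩, h3, h4, h5, h6⟩ := hp
    rw [mem_coe, mem_filter, Nat.mem_finMulAntidiag, prod_perm _ π]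
    dsimp only at h1 h3 h4 h5 h6 ⊢
    rw [Equiv.symm_apply_apply, Equiv.symm_apply_apply, Equiv.symm_apply_apply]
    refine ⟨⟨?_, h2⟩, h3, h6, h4⟩
    exact Nat.mul_div_cancel' h5
  · intro v hv
    rw [mem_coe, mem_filter, Nat.mem_finMulAntidiag, prod_perm v π] at hv
    obtain ⟨⟨h1, h2⟩, h3, h4, h5⟩ := hv
    have h6 : 0 < v (π 0) * v (π 1) := by omega
    have h7 : n / (v (π 0) * v (π 1)) = v (π 2) := by
      rw [← h1, Nat.mul_div_cancel_left _ h6]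
    funext i
    dsimp only
    rw [h7]
    obtain ⟨j, rfl⟩ := π.surjective i
    rw [Equiv.symm_apply_apply]
    fin_cases j <;> rfl
  · rintro ⟨a, b⟩ hp
    dsimp only
    rw [Equiv.symm_apply_apply, Equiv.symm_apply_apply]
    rfl

lemma perm_one : ∀ τ : Equiv.Perm (Fin 3), τ 0 < τ 1 → τ 1 < τ 2 → τ = 1 := by decide

/-- a sorted order is unique -/
lemma SP_disj (y n : ℕ) (π π' : Equiv.Perm (Fin 3)) (h : π ≠ π') :
    Disjoint (SP y n π) (SP y n π') := by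
  rw [Finset.disjoint_left]
  intro v h1 h2
  unfold SP at h1 h2
  rw [mem_filter] at h1 h2
  obtain ⟨_, h3, h4, _⟩ := h1
  obtain ⟨_, h5, h6, _⟩ := h2
  apply h
  have hm : StrictMono (fun i => v (π i)) := by
    rw [Fin.strictMono_iff_lt_succ]
    intro i
    fin_cases i
    · exact h3
    · exact h4
  have e : ∀ i, π ((π⁻¹ * π') i) = π' i := fun i => π.apply_symm_apply (π' i)
  have h7 : (π⁻¹ * π') 0 < (π⁻¹ * π') 1 := by
    rw [← hm.lt_iff_lt, e, e]
    exact h5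
  have h8 : (π⁻¹ * π') 1 < (π⁻¹ * π') 2 := by
    rw [← hm.lt_iff_lt, e, e]
    exact h6
  have h9 := perm_one _ h7 h8
  rw [inv_mul_eq_one] at h9
  exact h9

/-- in a balanced sorted factorisation all products of two members are `> y` -/
lemma SP_big (y n : ℕ) (π : Equiv.Perm (Fin 3)) (v : Fin 3 → ℕ) (h : v ∈ SP y n π) (i : Fin 3) :
    ¬ n / v i ≤ y := by
  unfold SP at h
  rw [mem_filter, Nat.mem_finMulAntidiag, prod_perm v π] at h
  obtain ⟨⟨h1, h2⟩, h3, h4, h5⟩ := h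
  have h6 : 0 < v (π 0) * v (π 1) := by omega
  have ha : 0 < v (π 0) := by
    rcases Nat.eq_zero_or_pos (v (π 0)) with h | h
    · rw [h, zero_mul] at h6
      exact absurd h6 (lt_irrefl 0)
    · exact h
  have hb : 0 < v (π 1) := lt_trans ha h3
  have hc : 0 < v (π 2) := lt_trans hb h4
  rw [not_le]
  obtain ⟨j, rfl⟩ := π.surjective i
  fin_cases j
  · change y < n / v (π 0)
    have h7 : n / v (π 0) = v (π 1) * v (π 2) := by
      rw [← h1, mul_assoc, Nat.mul_div_cancel_left _ ha]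
    rw [h7]
    refine lt_of_lt_of_le h5 ?_
    rw [mul_comm]
    exact Nat.mul_le_mul_left _ (h3.le.trans h4.le)
  · change y < n / v (π 1)
    have h7 : n / v (π 1) = v (π 0) * v (π 2) := by
      rw [← h1, mul_comm (v (π 0)), mul_assoc, Nat.mul_div_cancel_left _ hb]
    rw [h7]
    exact lt_of_lt_of_le h5 (Nat.mul_le_mul_left _ h4.le)
  · change y < n / v (π 2)
    have h7 : n / v (π 2) = v (π 0) * v (π 1) := by
      rw [← h1, Nat.mul_div_cancel _ hc]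
    rw [h7]
    exact h5

/-- the pieces are disjoint -/
theorem pieces (n y : ℕ) (hn : y ^ 2 < n) :
    ∑ i : Fin 3, ((Nat.finMulAntidiag 3 n).filter (fun v => n / v i ≤ y)).card + 6 * srt y n ≤
      (Nat.finMulAntidiag 3 n).card := by
  classical
  have hsum : ∑ i : Fin 3, ((Nat.finMulAntidiag 3 n).filter (fun v => n / v i ≤ y)).card +
      6 * srt y n = ∑ s : Fin 3 ⊕ Equiv.Perm (Fin 3), (Sum.elim
        (fun i => (Nat.finMulAntidiag 3 n).filter (fun v => n / v i ≤ y)) (SP y n) s).card := by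
    rw [Fintype.sum_sum_type]
    congr 1
    simp only [Sum.elim_inr]
    rw [Finset.sum_congr rfl (fun π _ => SP_card y n π), Finset.sum_const, Finset.card_univ,
      Fintype.card_perm, Fintype.card_fin, smul_eq_mul]
    rfl
  rw [hsum, ← Finset.card_biUnion]
  · refine Finset.card_le_card ?_
    intro v hv
    rw [mem_biUnion] at hv
    obtain ⟨s, _, hs⟩ := hv
    rcases s with i | π
    · exact (mem_filter.1 hs).1
    · exact (mem_filter.1 hs).1
  · intro s _ s' _ hss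
    rcases s with i | π <;> rcases s' with j | π'
    · have hij : i ≠ j := fun h => hss (by rw [h])
      refine Finset.disjoint_left.2 ?_
      intro v hvi hvj
      simp only [Sum.elim_inl] at hvi hvj
      rw [mem_filter] at hvi hvj
      obtain ⟨hv, hi⟩ := hvi
      obtain ⟨_, hj⟩ := hvj
      have hv1 := Nat.mem_finMulAntidiag.1 hv
      have hdvd : v i * v j ∣ n := by
        rw [← hv1.1, ← Finset.prod_pair (f := v) hij]
        exact Finset.prod_dvd_prod_of_subset _ _ _ (Finset.subset_univ _)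
      have hdi : v i ∣ n := (Dvd.intro _ rfl).trans hdvd
      have hn0 : 0 < n := Nat.pos_of_ne_zero hv1.2
      have hji : v j ≤ n / v i := by
        have hi0 : 0 < v i := Nat.pos_of_dvd_of_pos hdi hn0
        rw [Nat.le_div_iff_mul_le hi0, mul_comm]
        exact Nat.le_of_dvd hn0 hdvd
      have hdj : v j ∣ n := (Dvd.intro_left _ rfl).trans hdvd
      have h4 : n = v j * (n / v j) := (Nat.mul_div_cancel' hdj).symm
      have h5 : v j * (n / v j) ≤ y * y := Nat.mul_le_mul (hji.trans hi) hj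
      rw [← h4] at h5
      nlinarith
    · refine Finset.disjoint_left.2 ?_
      intro v hvi hvj
      exact SP_big y n π' v hvj i (mem_filter.1 hvi).2
    · refine Finset.disjoint_left.2 ?_
      intro v hvi hvj
      exact SP_big y n π v hvi j (mem_filter.1 hvj).2
    · exact SP_disj y n π π' (fun h => hss (by rw [h]))

/-- the pointwise inequality for the divisor function -/
theorem key (y n : ℕ) (hn : y ^ 2 < n) : 3 * aa 2 y n + 6 * (srt y n : ℝ) ≤ dk 3 n := by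
  have h1 : aa 2 y n
      = ((∑ m ∈ n.divisors.filter (fun m => m ≤ y), (Nat.finMulAntidiag 2 m).card : ℕ) : ℝ) := by
    unfold aa
    push_cast
    exact Finset.sum_congr rfl (fun m _ => Pool.Agent.H380R2.ADA.dk_eq_card 2 m)
  rw [h1, Pool.Agent.H380R2.ADA.dk_eq_card]
  have h2 : 3 * ∑ m ∈ n.divisors.filter (fun m => m ≤ y), (Nat.finMulAntidiag 2 m).card
      = ∑ i : Fin 3, ((Nat.finMulAntidiag 3 n).filter (fun v => n / v i ≤ y)).card := by
    rw [Finset.sum_congr rfl (fun i _ => Pool.Agent.H380R2.ADA.fib 2 n i (fun m => m ≤ y))]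
    rw [Finset.sum_const, Finset.card_univ, Fintype.card_fin, smul_eq_mul]
  have h3 := pieces n y hn
  rw [← h2] at h3
  exact_mod_cast h3

/-- the sorted balanced part of the correlation at `n` -/
noncomputable def ss (y n h : ℕ) : ℝ := if n ≤ y ^ 2 then 0 else (srt y n : ℝ) * (srt y (n + h) : ℝ)

lemma pw' (y n h : ℕ) :
    3 * (aa 2 y n * dk 3 (n + h)) + 3 * (dk 3 n * aa 2 y (n + h))
      - 9 * (aa 2 y n * aa 2 y (n + h)) -
      (if n ≤ y ^ 2 then 6 * (dk 3 n * dk 3 (n + h)) else 0) + 36 * ss y n h ≤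
    dk 3 n * dk 3 (n + h) := by
  unfold ss
  by_cases hn : n ≤ y ^ 2
  · have h1 := Pool.Agent.H329R2.AD.pw 2 y n h
    rw [if_pos hn] at h1 ⊢
    rw [if_pos hn]
    have h2 : ((2 : ℕ) : ℝ) + 1 = 3 := by norm_num
    rw [h2] at h1
    norm_num at h1 ⊢
    linarith
  · rw [if_neg hn, if_neg hn]
    push Not at hn
    have p1 := key y n hn
    have p2 := key y (n + h) (by omega)
    have s1 : (0 : ℝ) ≤ (srt y n : ℝ) := Nat.cast_nonneg _
    have s2 : (0 : ℝ) ≤ (srt y (n + h) : ℝ) := Nat.cast_nonneg _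
    have q1 : 6 * (srt y n : ℝ) ≤ dk 3 n - 3 * aa 2 y n := by linarith
    have q2 : 6 * (srt y (n + h) : ℝ) ≤ dk 3 (n + h) - 3 * aa 2 y (n + h) := by linarith
    have q3 := mul_le_mul q1 q2 (by positivity) (by linarith)
    nlinarith [q3]

theorem fixed' (y h X : ℕ) (hh : 1 ≤ h) :
    3 * ∑ N ∈ Ioc h X, dk 3 N *
        ∑ m ∈ (Icc 1 y).filter (fun m : ℕ => (m : ℤ) ∣ (N : ℤ) - (h : ℤ)), dk 2 m +
      3 * ∑ N ∈ Ioc h X, dk 3 N *
        ∑ m ∈ (Icc 1 y).filter (fun m : ℕ => (m : ℤ) ∣ (N : ℤ) - (-(h : ℤ))), dk 2 m -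
      9 * ∑ n ∈ Icc 1 X, aa 2 y n * aa 2 y (n + h) -
      6 * ∑ n ∈ Icc 1 (y ^ 2), dk 3 n * dk 3 (n + h) + 36 * ∑ n ∈ Icc 1 X, ss y n h ≤
    ∑ n ∈ Icc 1 X, dk 3 n * dk 3 (n + h) := by
  have h1 : ∑ N ∈ Ioc h X, dk 3 N *
        ∑ m ∈ (Icc 1 y).filter (fun m : ℕ => (m : ℤ) ∣ (N : ℤ) - (h : ℤ)), dk 2 m ≤
      ∑ n ∈ Icc 1 X, aa 2 y n * dk 3 (n + h) := by
    calc ∑ N ∈ Ioc h X, dk 3 N *
        ∑ m ∈ (Icc 1 y).filter (fun m : ℕ => (m : ℤ) ∣ (N : ℤ) - (h : ℤ)), dk 2 m =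
        ∑ N ∈ Ioc h X, aa 2 y (N - h) * dk 3 ((N - h) + h) := by
          apply sum_congr rfl
          intro N hN
          rw [mem_Ioc] at hN
          rw [aa_eq 2 y (N - h) (by omega) _ (by push_cast [Nat.cast_sub hN.1.le]; ring),
            Nat.sub_add_cancel hN.1.le, mul_comm]
      _ = ∑ n ∈ (Ioc h X).image (fun N => N - h), aa 2 y n * dk 3 (n + h) := by
          rw [sum_image]
          intro a ha b hb hab
          simp only [coe_Ioc, Set.mem_Ioc] at ha hb hab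
          omega
      _ ≤ _ := by
          apply sum_le_sum_of_subset_of_nonneg
          · intro n hn
            rw [mem_image] at hn
            obtain ⟨N, hN, rfl⟩ := hn
            rw [mem_Ioc] at hN
            rw [mem_Icc]
            omega
          · intro n _ _
            exact mul_nonneg (aa_nonneg _ _ _) (dk_nonneg _ _)
  have h2 : ∑ N ∈ Ioc h X, dk 3 N *
        ∑ m ∈ (Icc 1 y).filter (fun m : ℕ => (m : ℤ) ∣ (N : ℤ) - (-(h : ℤ))), dk 2 m ≤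
      ∑ n ∈ Icc 1 X, dk 3 n * aa 2 y (n + h) := by
    calc ∑ N ∈ Ioc h X, dk 3 N *
        ∑ m ∈ (Icc 1 y).filter (fun m : ℕ => (m : ℤ) ∣ (N : ℤ) - (-(h : ℤ))), dk 2 m =
        ∑ N ∈ Ioc h X, dk 3 N * aa 2 y (N + h) := by
          apply sum_congr rfl
          intro N hN
          rw [mem_Ioc] at hN
          rw [aa_eq 2 y (N + h) (by omega) _ (by push_cast; ring)]
      _ ≤ _ := by
          apply sum_le_sum_of_subset_of_nonneg
          · intro n hn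
            rw [mem_Ioc] at hn
            rw [mem_Icc]
            omega
          · intro n _ _
            exact mul_nonneg (dk_nonneg _ _) (aa_nonneg _ _ _)
  have h3 : ∑ n ∈ Icc 1 X, (if n ≤ y ^ 2 then 6 * (dk 3 n * dk 3 (n + h)) else 0) ≤
      6 * ∑ n ∈ Icc 1 (y ^ 2), dk 3 n * dk 3 (n + h) := by
    rw [mul_sum, ← sum_filter]
    apply sum_le_sum_of_subset_of_nonneg
    · intro n hn
      rw [mem_filter, mem_Icc] at hn
      rw [mem_Icc]
      omega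
    · intro n _ _
      have := dk_nonneg 3 n
      have := dk_nonneg 3 (n + h)
      positivity
  have h4 := sum_le_sum (fun n (_ : n ∈ Icc 1 X) => pw' y n h)
  rw [sum_add_distrib, sum_sub_distrib, sum_sub_distrib, sum_add_distrib, ← mul_sum, ← mul_sum,
    ← mul_sum, ← mul_sum] at h4
  linarith

/-- `srt` is nonincreasing in `y` -/
lemma srt_anti (y y' n : ℕ) (hy : y ≤ y') : srt y' n ≤ srt y n := by
  unfold srt
  apply Finset.card_le_card
  intro p hp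
  rw [mem_filter] at hp ⊢
  exact ⟨hp.1, hp.2.1, lt_of_le_of_lt hy hp.2.2.1, hp.2.2.2⟩

/-- for large `X` the sorted balanced part is at least `TT h X` -/
lemma TT_le (h : ℕ) (t : ℝ) (ht : 0 < t) : ∀ᶠ x : ℝ in atTop, ∀ X : ℕ, (X : ℝ) = x →
    TT h X ≤ ∑ n ∈ Icc 1 X, ss ⌊x ^ (1 / 2 - t)⌋₊ n h := by
  have h1 : ∀ᶠ x : ℝ in atTop, Real.log x ≤ (1 / 2) * x ^ (2 * t) := by
    have := (isLittleO_log_rpow_atTop (by positivity : 0 < 2 * t)).bound
      (by norm_num : (0 : ℝ) < 1 / 2)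
    filter_upwards [this, eventually_ge_atTop (1 : ℝ)] with x hx hx1
    rw [Real.norm_of_nonneg (Real.log_nonneg hx1),
      Real.norm_of_nonneg (Real.rpow_nonneg (by linarith) _)] at hx
    exact hx
  have h2 : ∀ᶠ x : ℝ in atTop, 1 ≤ Real.log x := Real.tendsto_log_atTop.eventually_ge_atTop 1
  filter_upwards [h1, h2, eventually_ge_atTop (1 : ℝ)] with x hx1 hx2 hx3
  rintro X rfl
  have hx0 : (0 : ℝ) < (X : ℝ) := by linarith
  set x : ℝ := (X : ℝ) with hx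
  set y := ⌊x ^ (1 / 2 - t)⌋₊ with hy
  have hyx : (y : ℝ) ≤ x ^ (1 / 2 - t) := Nat.floor_le (by positivity)
  have hy2 : ((y ^ 2 : ℕ) : ℝ) ≤ x ^ (1 - 2 * t) := by
    push_cast
    calc (y : ℝ) ^ 2 ≤ (x ^ (1 / 2 - t)) ^ 2 := pow_le_pow_left₀ (Nat.cast_nonneg _) hyx 2
      _ = x ^ (1 - 2 * t) := by
        rw [← Real.rpow_natCast, ← Real.rpow_mul hx0.le]
        congr 1
        push_cast
        ring
  have hle : x ^ (1 - 2 * t) ≤ x / (2 * Real.log x) := by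
    rw [le_div_iff₀ (by linarith)]
    calc x ^ (1 - 2 * t) * (2 * Real.log x) ≤ x ^ (1 - 2 * t) * (2 * (1 / 2 * x ^ (2 * t))) :=
          mul_le_mul_of_nonneg_left (by linarith) (by positivity)
      _ = x ^ (1 - 2 * t) * x ^ (2 * t) := by ring
      _ = x := by
        rw [← Real.rpow_add hx0, sub_add_cancel, Real.rpow_one]
  have hys : y ≤ Nat.sqrt X := by
    rw [Nat.le_sqrt']
    have h5 : ((y ^ 2 : ℕ) : ℝ) ≤ x := by
      refine hy2.trans ?_
      calc x ^ (1 - 2 * t) ≤ x ^ (1 : ℝ) := Real.rpow_le_rpow_of_exponent_le hx3 (by linarith)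
        _ = x := Real.rpow_one x
    exact Nat.cast_le.1 (show ((y ^ 2 : ℕ) : ℝ) ≤ ((X : ℕ) : ℝ) from h5)
  unfold TT
  have hsub : Ioc ⌊x / (2 * Real.log x)⌋₊ X ⊆ Icc 1 X := by
    intro n hn
    rw [mem_Ioc] at hn
    rw [mem_Icc]
    omega
  have hnn : ∀ n, 0 ≤ ss y n h := by
    intro n
    unfold ss
    split_ifs
    · exact le_refl 0
    · positivity
  refine le_trans (sum_le_sum (fun N hN => ?_))
    (sum_le_sum_of_subset_of_nonneg hsub fun n _ _ => hnn n)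
  rw [mem_Ioc] at hN
  have h6 : x / (2 * Real.log x) < (N : ℝ) := by
    exact (Nat.floor_lt (by positivity)).1 hN.1
  have h7 : ¬ N ≤ y ^ 2 := by
    intro h8
    have h9 : (N : ℝ) ≤ ((y ^ 2 : ℕ) : ℝ) := by exact_mod_cast h8
    linarith
  unfold ss
  rw [if_neg h7]
  have a1 : (srt (Nat.sqrt X) N : ℝ) ≤ (srt y N : ℝ) := by
    exact_mod_cast srt_anti y (Nat.sqrt X) N hys
  have a2 : (srt (Nat.sqrt X) (N + h) : ℝ) ≤ (srt y (N + h) : ℝ) := by
    exact_mod_cast srt_anti y (Nat.sqrt X) (N + h) hys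
  exact mul_le_mul a1 a2 (Nat.cast_nonneg _) (Nat.cast_nonneg _)

theorem s11 : S11 := by
  intro h hh c hc
  have hc' : c < 1 - (1 - (((2 : ℕ) : ℝ) + 1) / 2 ^ 2) ^ 2 := by
    norm_num
    linarith
  obtain ⟨t, ht0, ht4, hct⟩ := GG_exists 2 (by norm_num) c hc'
  have hSS := SS_pos 2 h (by norm_num) hh
  have hsp : (h : ℤ) ≠ 0 := by exact_mod_cast (by omega : h ≠ 0)
  have hsn : (-(h : ℤ)) ≠ 0 := neg_ne_zero.mpr hsp
  obtain ⟨θ₁, hθ₁, hT1⟩ := T_lower_of BVStmt_holds DBStmt_holds 2 (h : ℤ) hsp t t t ht0 ht0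
    (by linarith) ht0
  obtain ⟨θ₂, hθ₂, hT2⟩ := T_lower_of BVStmt_holds DBStmt_holds 2 (-(h : ℤ)) hsn t t t ht0 ht0
    (by linarith) ht0
  obtain ⟨K₁, hK₁, hs1⟩ := small1 2 t ht0 (by linarith)
  obtain ⟨K₂, hK₂, hs2⟩ := small2 3 h t ht0 (by linarith)
  rw [Int.natAbs_natCast] at hT1
  rw [Int.natAbs_neg, Int.natAbs_natCast] at hT2
  have hF : ((Nat.factorial 2 : ℕ) : ℝ) ^ 2 = 4 := by
    norm_num [Nat.factorial]
  -- the main function
  set P1 : ℝ → ℝ := fun x => BB 2 h (x ^ (1 / 2 - t)) (x ^ (1 - t)) / Real.log x ^ 4 with hP1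
  set P2 : ℝ → ℝ := fun x => BB 2 h (x ^ (1 / 2 - t)) (x ^ t) / Real.log x ^ 4 with hP2
  set P3 : ℝ → ℝ := fun x => BB 2 h (x ^ (1 / 2 - t)) (x ^ (1 / 2 - t)) / Real.log x ^ 4 with hP3
  have l1 : Tendsto P1 atTop (𝓝 ((1 / 2 - t) ^ 2 * (1 - t) ^ 2 / 4 * SS 3 h)) := by
    rw [← hF]
    exact BB_asymp 2 h (by norm_num) hh _ _ (by linarith) (by linarith)
  have l2 : Tendsto P2 atTop (𝓝 ((1 / 2 - t) ^ 2 * t ^ 2 / 4 * SS 3 h)) := by
    rw [← hF]
    exact BB_asymp 2 h (by norm_num) hh _ _ (by linarith) (by linarith)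
  have l3 : Tendsto P3 atTop (𝓝 ((1 / 2 - t) ^ 2 * (1 / 2 - t) ^ 2 / 4 * SS 3 h)) := by
    rw [← hF]
    exact BB_asymp 2 h (by norm_num) hh _ _ (by linarith) (by linarith)
  set K₃ : ℝ := 9 * K₁ + 6 * K₂ with hK₃
  have e1 : Tendsto (fun x : ℝ => 3 * x ^ (-θ₁) + 3 * x ^ (-θ₂) + K₃ * x ^ (-t)) atTop (𝓝 0) := by
    have h1 := (tendsto_rpow_neg_atTop hθ₁).const_mul 3
    have h2 := (tendsto_rpow_neg_atTop hθ₂).const_mul 3
    have h3 := (tendsto_rpow_neg_atTop ht0).const_mul K₃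
    simpa using (h1.add h2).add h3
  have lim : Tendsto (fun x : ℝ => 2 * 3 / (1 + t) * (P1 x - P2 x) - 9 * P3 x -
      (3 * x ^ (-θ₁) + 3 * x ^ (-θ₂) + K₃ * x ^ (-t))) atTop
      (𝓝 (2 * 3 / (1 + t) * ((1 / 2 - t) ^ 2 * (1 - t) ^ 2 / 4 * SS 3 h -
        (1 / 2 - t) ^ 2 * t ^ 2 / 4 * SS 3 h) -
        9 * ((1 / 2 - t) ^ 2 * (1 / 2 - t) ^ 2 / 4 * SS 3 h) - 0)) :=
    (((l1.sub l2).const_mul _).sub (l3.const_mul _)).sub e1
  have hval : 2 * 3 / (1 + t) * ((1 / 2 - t) ^ 2 * (1 - t) ^ 2 / 4 * SS 3 h -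
        (1 / 2 - t) ^ 2 * t ^ 2 / 4 * SS 3 h) -
        9 * ((1 / 2 - t) ^ 2 * (1 / 2 - t) ^ 2 / 4 * SS 3 h) - 0 =
      GG 2 t * (SS 3 h / 4) := by
    unfold GG
    push_cast
    ring
  rw [hval] at lim
  have hlt : c * (SS 3 h / 4) < GG 2 t * (SS 3 h / 4) :=
    mul_lt_mul_of_pos_right hct (by positivity)
  have hev := lim.eventually_const_lt hlt
  have hev_log : ∀ᶠ x : ℝ in atTop, 1 ≤ Real.log x := Real.tendsto_log_atTop.eventually_ge_atTop 1
  have hev_h : ∀ᶠ x : ℝ in atTop, (h : ℝ) ≤ x := eventually_ge_atTop _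
  have hev_1 : ∀ᶠ x : ℝ in atTop, (1 : ℝ) ≤ x := eventually_ge_atTop _
  have hev_T := TT_le h t ht0
  have hall := (hT1.and (hT2.and (hev.and (hev_log.and (hev_h.and (hev_1.and hev_T))))))
  have hnat := tendsto_natCast_atTop_atTop (R := ℝ) |>.eventually hall
  filter_upwards [hnat] with X hX
  obtain ⟨hX1, hX2, hX3, hX4, hX5, hX6, hX7⟩ := hX
  have hTT := hX7 X rfl
  clear hX7 hev_T
  set x : ℝ := (X : ℝ) with hx
  have hx0 : 0 < x := by linarith
  rw [Nat.floor_natCast] at hX1 hX2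
  set y := ⌊x ^ (1 / 2 - t)⌋₊ with hy
  have hfix := fixed' y h X hh
  have hAA := Pool.Agent.H909R2.ADF.AA_upper 2 h X y hh
  have hAA' : ∑ n ∈ Icc 1 X, aa 2 y n * aa 2 y (n + h) ≤
      x * BB 2 h (x ^ (1 / 2 - t)) (x ^ (1 / 2 - t)) + K₁ * x ^ (1 - t) := by
    have hBBy : BB 2 h (y : ℝ) (y : ℝ) = BB 2 h (x ^ (1 / 2 - t)) (x ^ (1 / 2 - t)) := by
      unfold BB
      rw [Nat.floor_natCast]
    rw [hBBy] at hAA
    have := hs1 x hX6
    unfold aa
    linarith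
  have hS2 := hs2 x hX6 hX5
  set L := Real.log x ^ 4 with hL
  have hL1 : 1 ≤ L := one_le_pow₀ hX4
  have hL0 : 0 < L := by linarith
  -- lower bound
  have hD : 3 * (x / (1 + t) * (BB 2 h (x ^ (1 / 2 - t)) (x ^ (1 - t)) -
        BB 2 h (x ^ (1 / 2 - t)) (x ^ t)) - x ^ (1 - θ₁)) +
      3 * (x / (1 + t) * (BB 2 h (x ^ (1 / 2 - t)) (x ^ (1 - t)) -
        BB 2 h (x ^ (1 / 2 - t)) (x ^ t)) - x ^ (1 - θ₂)) -
      9 * (x * BB 2 h (x ^ (1 / 2 - t)) (x ^ (1 / 2 - t)) + K₁ * x ^ (1 - t)) -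
      6 * (K₂ * x ^ (1 - t)) + 36 * TT h X ≤ ∑ n ∈ Icc 1 X, dk 3 n * dk 3 (n + h) := by
    refine le_trans ?_ hfix
    have g1 := mul_le_mul_of_nonneg_left hX1 (by norm_num : (0 : ℝ) ≤ 3)
    have g2 := mul_le_mul_of_nonneg_left hX2 (by norm_num : (0 : ℝ) ≤ 3)
    have g3 := mul_le_mul_of_nonneg_left hAA' (by norm_num : (0 : ℝ) ≤ 9)
    have g4 := mul_le_mul_of_nonneg_left hS2 (by norm_num : (0 : ℝ) ≤ 6)
    linarith
  refine le_trans ?_ hD
  have hB1 : BB 2 h (x ^ (1 / 2 - t)) (x ^ (1 - t)) = P1 x * L :=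
    (div_mul_cancel₀ _ hL0.ne').symm
  have hB2 : BB 2 h (x ^ (1 / 2 - t)) (x ^ t) = P2 x * L :=
    (div_mul_cancel₀ _ hL0.ne').symm
  have hB3 : BB 2 h (x ^ (1 / 2 - t)) (x ^ (1 / 2 - t)) = P3 x * L :=
    (div_mul_cancel₀ _ hL0.ne').symm
  have hx1 : x ^ (1 - θ₁) = x * x ^ (-θ₁) := by
    rw [sub_eq_add_neg, Real.rpow_add hx0, Real.rpow_one]
  have hx2 : x ^ (1 - θ₂) = x * x ^ (-θ₂) := by
    rw [sub_eq_add_neg, Real.rpow_add hx0, Real.rpow_one]
  have hx3 : x ^ (1 - t) = x * x ^ (-t) := by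
    rw [sub_eq_add_neg, Real.rpow_add hx0, Real.rpow_one]
  rw [hB1, hB2, hB3, hx1, hx2, hx3]
  clear hB1 hB2 hB3 hx1 hx2 hx3 hD hfix hAA hAA' hS2 hX1 hX2 hnat hall hev lim hval hlt e1 l1 l2
    l3 hT1 hT2 hs1 hs2 hTT
  clear_value P1 P2 P3 y
  set E := 3 * x ^ (-θ₁) + 3 * x ^ (-θ₂) + K₃ * x ^ (-t) with hE
  have hE0 : 0 ≤ E := by positivity
  have hkey : c * (SS 3 h / 4) * (x * L) ≤
      (2 * 3 / (1 + t) * (P1 x - P2 x) - 9 * P3 x - E) * (x * L) :=
    mul_le_mul_of_nonneg_right hX3.le (by positivity)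
  have hEL : x * E ≤ E * (x * L) := by nlinarith [mul_nonneg hx0.le hE0]
  have hfin : c * (SS 3 h / 4 * x * L) ≤
      (2 * 3 / (1 + t) * (P1 x - P2 x) - 9 * P3 x) * (x * L) - x * E := by
    calc c * (SS 3 h / 4 * x * L) = c * (SS 3 h / 4) * (x * L) := by ring
    _ ≤ (2 * 3 / (1 + t) * (P1 x - P2 x) - 9 * P3 x - E) * (x * L) := hkey
    _ = (2 * 3 / (1 + t) * (P1 x - P2 x) - 9 * P3 x) * (x * L) - E * (x * L) := by ring
    _ ≤ (2 * 3 / (1 + t) * (P1 x - P2 x) - 9 * P3 x) * (x * L) - x * E := by linarith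
  refine (add_le_add_left hfin (36 * TT h X)).trans (le_of_eq ?_)
  rw [hE, hK₃]
  ring

end Pool.Agent.H996.TD
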